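import Mathlib
import Pool.Agent.N248.SD.D
set_option autoImplicit false

/-! The inequality of Hardy, Littlewood and Sobolev for the kernel `|x - y|^(-(N-1))` on `ℝ^N` and a
nonnegative function (the diagonal case, exponent `2N/(N+1)`), by a direct splitting. -/

namespace Pool.Agent.Helper66x.CE

open MeasureTheory Set Metric
open scoped ENNReal
open Pool.Agent.N248.SD

/-- the exponent `2N/(N+1)` -/
noncomputable def rr (N : ℕ) : ℝ := 2 * N / (N + 1)

/-- the exponent `2/(N+1)` -/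
noncomputable def ss (N : ℕ) : ℝ := 2 / (N + 1)

/-- the exponent `(N+1)/2` -/
noncomputable def rh (N : ℕ) : ℝ := (N + 1) / 2

theorem ss_pos (N : ℕ) : 0 < ss N := by unfold ss; positivity

theorem rh_pos (N : ℕ) : 0 < rh N := by unfold rh; positivity

theorem ss_rh (N : ℕ) : ss N * rh N = 1 := by unfold ss rh; field_simp

theorem rr_eq (N : ℕ) : rr N = 2 - ss N := by unfold ss rr; field_simp; ring

theorem rr_pos (N : ℕ) (hN : 2 ≤ N) : 0 < rr N := by
  have : (2 : ℝ) ≤ N := by exact_mod_cast hN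
  unfold rr; positivity

/-- the majorant -/
noncomputable def Pm (N : ℕ) (κ u t : ℝ) : ℝ :=
  if t < κ * u ^ (-ss N) then u ^ 2 * t ^ (-((N : ℝ) - 1))
  else u * κ ^ rh N * t ^ (-(rh N + ((N : ℝ) - 1)))

theorem Pm_nonneg (N : ℕ) (κ u t : ℝ) (hκ : 0 < κ) (hu : 0 ≤ u) (ht : 0 ≤ t) :
    0 ≤ Pm N κ u t := by
  unfold Pm; split_ifs <;> positivity

theorem pointwise (N : ℕ) (hN : 2 ≤ N) (κ u v t : ℝ) (hκ : 0 < κ) (hv : 0 ≤ v) (hvu : v ≤ u)
    (ht : 0 < t) :
    u * v * t ^ (-((N : ℝ) - 1)) ≤ Pm N κ u t + κ ^ (-((N : ℝ) - 1)) * (u ^ rr N * v ^ rr N) := by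
  have hN' : (2 : ℝ) ≤ N := by exact_mod_cast hN
  have hu : 0 ≤ u := hv.trans hvu
  rcases hv.eq_or_lt with h0 | hv0
  · rw [← h0]
    have := Pm_nonneg N κ u t hκ hu ht.le
    have h2 : 0 ≤ κ ^ (-((N : ℝ) - 1)) * (u ^ rr N * 0 ^ rr N) := by positivity
    simpa using add_nonneg this h2
  have hu0 : 0 < u := hv0.trans_le hvu
  have hQ : 0 ≤ κ ^ (-((N : ℝ) - 1)) * (u ^ rr N * v ^ rr N) := by positivity
  unfold Pm
  split_ifs with h
  · have : u * v * t ^ (-((N : ℝ) - 1)) ≤ u ^ 2 * t ^ (-((N : ℝ) - 1)) := by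
      gcongr
      nlinarith
    linarith
  · by_cases h1 : v ≤ (κ / t) ^ rh N
    · have : u * v * t ^ (-((N : ℝ) - 1)) ≤ u * κ ^ rh N * t ^ (-(rh N + ((N : ℝ) - 1))) := by
        rw [neg_add, Real.rpow_add ht, Real.rpow_neg ht.le (rh N), ← mul_assoc]
        have h2 : v ≤ κ ^ rh N * (t ^ rh N)⁻¹ := by
          rw [← div_eq_mul_inv, ← Real.div_rpow hκ.le ht.le]
          exact h1
        have h3 : u * v ≤ u * κ ^ rh N * (t ^ rh N)⁻¹ := by
          rw [mul_assoc]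
          exact mul_le_mul_of_nonneg_left h2 hu
        exact mul_le_mul_of_nonneg_right h3 (Real.rpow_nonneg ht.le _)
      linarith
    · push Not at h1
      have h2 : κ / t ≤ v ^ ss N := by
        have : (κ / t) = ((κ / t) ^ rh N) ^ ss N := by
          rw [← Real.rpow_mul (by positivity), mul_comm, ss_rh, Real.rpow_one]
        rw [this]
        exact Real.rpow_le_rpow (by positivity) h1.le (ss_pos N).le
      have h3 : t⁻¹ ≤ v ^ ss N / κ := by
        rw [le_div_iff₀ hκ, mul_comm]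
        exact h2
      have h4 : t ^ (-((N : ℝ) - 1)) ≤ κ ^ (-((N : ℝ) - 1)) * v ^ (ss N * ((N : ℝ) - 1)) := by
        rw [Real.rpow_neg ht.le, ← Real.inv_rpow ht.le, Real.rpow_mul hv0.le,
          Real.rpow_neg hκ.le, ← Real.inv_rpow hκ.le,
          ← Real.mul_rpow (by positivity) (by positivity)]
        refine Real.rpow_le_rpow (by positivity) ?_ (by linarith)
        rw [mul_comm, ← div_eq_mul_inv]
        exact h3
      have h5 : u * v * v ^ (ss N * ((N : ℝ) - 1)) ≤ u ^ rr N * v ^ rr N := by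
        have e1 : v * v ^ (ss N * ((N : ℝ) - 1)) = v ^ rr N * v ^ (1 - ss N) := by
          nth_rewrite 1 [← Real.rpow_one v]
          rw [← Real.rpow_add hv0, ← Real.rpow_add hv0]
          congr 1
          unfold ss rr
          field_simp
          ring
        have e2 : u ^ rr N = u * u ^ (1 - ss N) := by
          nth_rewrite 2 [← Real.rpow_one u]
          rw [← Real.rpow_add hu0]
          congr 1
          rw [rr_eq]; ring
        have h6 : 0 ≤ 1 - ss N := by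
          unfold ss
          rw [sub_nonneg, div_le_one (by positivity)]
          linarith
        rw [mul_assoc, e1, e2]
        calc u * (v ^ rr N * v ^ (1 - ss N)) ≤ u * (v ^ rr N * u ^ (1 - ss N)) := by
              gcongr
          _ = _ := by ring
      have hP : 0 ≤ u * κ ^ rh N * t ^ (-(rh N + ((N : ℝ) - 1))) := by positivity
      calc u * v * t ^ (-((N : ℝ) - 1))
          ≤ u * v * (κ ^ (-((N : ℝ) - 1)) * v ^ (ss N * ((N : ℝ) - 1))) := by gcongr
        _ = κ ^ (-((N : ℝ) - 1)) * (u * v * v ^ (ss N * ((N : ℝ) - 1))) := by ring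
        _ ≤ κ ^ (-((N : ℝ) - 1)) * (u ^ rr N * v ^ rr N) := by gcongr
        _ ≤ _ := by linarith

variable {N : ℕ}

/-- the integral of `|v|^(-(N-1)-ρ)` outside the unit ball -/
noncomputable def Fz (N : ℕ) : ℝ≥0∞ :=
  ∫⁻ v : EuclideanSpace ℝ (Fin N), ((ball (0 : EuclideanSpace ℝ (Fin N)) 1)ᶜ).indicator
    (fun v => ENNReal.ofReal (‖v‖ ^ (-(rh N + ((N : ℝ) - 1))))) v

theorem Fz_ne_top (N : ℕ) (hN : 2 ≤ N) : Fz N ≠ ∞ := by
  have hN' : (2 : ℝ) ≤ N := by exact_mod_cast hN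
  unfold Fz
  have h := integrable_one_add_norm (E := EuclideanSpace ℝ (Fin N)) (μ := volume)
    (r := rh N + ((N : ℝ) - 1)) (by
      rw [finrank_euclideanSpace, Fintype.card_fin]
      unfold rh
      linarith)
  have h2 : ∫⁻ v : EuclideanSpace ℝ (Fin N),
      ENNReal.ofReal (2 ^ (rh N + ((N : ℝ) - 1)) * (1 + ‖v‖) ^ (-(rh N + ((N : ℝ) - 1)))) ≠ ∞ := by
    exact (h.const_mul _).lintegral_lt_top.ne
  refine ne_top_of_le_ne_top h2 (lintegral_mono fun v => ?_)
  by_cases hv : v ∈ (ball (0 : EuclideanSpace ℝ (Fin N)) 1)ᶜ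
  · rw [indicator_of_mem hv]
    have hv1 : 1 ≤ ‖v‖ := by simpa using hv
    refine ENNReal.ofReal_le_ofReal ?_
    have h0 : 0 ≤ rh N + ((N : ℝ) - 1) := by
      have := rh_pos N
      linarith
    rw [Real.rpow_neg (by positivity), Real.rpow_neg (by positivity), ← div_eq_mul_inv,
      inv_eq_one_div, div_le_div_iff₀ (by positivity) (by positivity), one_mul,
      ← Real.mul_rpow (by norm_num) (norm_nonneg _)]
    exact Real.rpow_le_rpow (by positivity) (by linarith) h0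
  · rw [indicator_of_notMem hv]
    exact zero_le

theorem Fz_scale (N : ℕ) (ρ : ℝ) (hρ : 0 < ρ) :
    ∫⁻ v : EuclideanSpace ℝ (Fin N), ((ball (0 : EuclideanSpace ℝ (Fin N)) ρ)ᶜ).indicator
    (fun v => ENNReal.ofReal (‖v‖ ^ (-(rh N + ((N : ℝ) - 1))))) v =
      ENNReal.ofReal (ρ ^ (1 - rh N)) * Fz N := by
  have hg : Measurable (((ball (0 : EuclideanSpace ℝ (Fin N)) 1)ᶜ).indicator
      (fun v => ENNReal.ofReal (‖v‖ ^ (-(rh N + ((N : ℝ) - 1)))))) :=
    ((measurable_norm.pow_const _).ennreal_ofReal).indicator measurableSet_ball.compl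
  have h := scale _ hg ρ hρ
  have e1 : ∀ v : EuclideanSpace ℝ (Fin N), ((ball (0 : EuclideanSpace ℝ (Fin N)) ρ)ᶜ).indicator
      (fun v => ENNReal.ofReal (‖v‖ ^ (-(rh N + ((N : ℝ) - 1))))) v =
      ENNReal.ofReal (ρ ^ (-(rh N + ((N : ℝ) - 1)))) *
        ((ball (0 : EuclideanSpace ℝ (Fin N)) 1)ᶜ).indicator
      (fun v => ENNReal.ofReal (‖v‖ ^ (-(rh N + ((N : ℝ) - 1))))) (ρ⁻¹ • v) := by
    intro v
    have hn : ‖ρ⁻¹ • v‖ = ρ⁻¹ * ‖v‖ := by
      rw [norm_smul, Real.norm_of_nonneg (by positivity)]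
    by_cases hv : ‖v‖ < ρ
    · have h1 : v ∉ (ball (0 : EuclideanSpace ℝ (Fin N)) ρ)ᶜ := by simpa using hv
      have h2 : ρ⁻¹ • v ∉ (ball (0 : EuclideanSpace ℝ (Fin N)) 1)ᶜ := by
        rw [mem_compl_iff, not_not, mem_ball_zero_iff, hn, inv_mul_lt_iff₀ hρ, mul_one]; exact hv
      rw [indicator_of_notMem h1, indicator_of_notMem h2, mul_zero]
    · have h1 : v ∈ (ball (0 : EuclideanSpace ℝ (Fin N)) ρ)ᶜ := by simpa using hv
      have h2 : ρ⁻¹ • v ∈ (ball (0 : EuclideanSpace ℝ (Fin N)) 1)ᶜ := by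
        rw [mem_compl_iff, mem_ball_zero_iff, hn, inv_mul_lt_iff₀ hρ, mul_one]; exact hv
      rw [indicator_of_mem h1, indicator_of_mem h2, hn, ← ENNReal.ofReal_mul (by positivity)]
      congr 1
      rw [Real.mul_rpow (by positivity) (norm_nonneg _), Real.inv_rpow hρ.le, ← mul_assoc,
        mul_inv_cancel₀ (by positivity), one_mul]
  have hgm : Measurable fun v : EuclideanSpace ℝ (Fin N) =>
      ((ball (0 : EuclideanSpace ℝ (Fin N)) 1)ᶜ).indicator
      (fun v => ENNReal.ofReal (‖v‖ ^ (-(rh N + ((N : ℝ) - 1))))) (ρ⁻¹ • v) :=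
    hg.comp (measurable_const_smul _)
  simp_rw [e1]
  rw [lintegral_const_mul _ hgm, h]
  unfold Fz
  rw [← mul_assoc, ← ENNReal.ofReal_mul (by positivity)]
  congr 2
  rw [← Real.rpow_natCast, ← Real.rpow_add hρ]
  congr 1
  ring

theorem Pm_meas (κ : ℝ) : Measurable (Function.uncurry fun u t : ℝ => Pm N κ u t) := by
  unfold Function.uncurry Pm
  refine Measurable.ite ?_ ?_ ?_
  · exact measurableSet_lt measurable_snd ((measurable_fst.pow_const _).const_mul _)
  · exact (measurable_fst.pow_const 2).mul (measurable_snd.pow_const _)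
  · exact (measurable_fst.mul_const _).mul (measurable_snd.pow_const _)

/-- the integral of the majorant -/
theorem Pm_int (hN : 2 ≤ N) (κ u : ℝ) (hκ : 0 < κ) (hu : 0 ≤ u) :
    ∫⁻ v : (EuclideanSpace ℝ (Fin N)), ENNReal.ofReal (Pm N κ u ‖v‖) ≤
      (Rz N + Fz N) * (ENNReal.ofReal κ * ENNReal.ofReal (u ^ rr N)) := by
  have hN' : (2 : ℝ) ≤ N := by exact_mod_cast hN
  rcases hu.eq_or_lt with h0 | hu0
  · have : ∀ v : (EuclideanSpace ℝ (Fin N)), Pm N κ u ‖v‖ = 0 := by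
      intro v
      unfold Pm
      rw [← h0]
      split_ifs <;> simp
    simp_rw [this]
    simp
  set ρ : ℝ := κ * u ^ (-ss N) with hρ
  have hρ0 : 0 < ρ := by positivity
  have e1 : ∀ v : (EuclideanSpace ℝ (Fin N)), ENNReal.ofReal (Pm N κ u ‖v‖) ≤
      ENNReal.ofReal (u ^ 2) * (ball (0 : (EuclideanSpace ℝ (Fin N))) ρ).indicator
        (fun v => ENNReal.ofReal (‖v‖ ^ (-((N : ℝ) - 1)))) v +
      ENNReal.ofReal (u * κ ^ rh N) * ((ball (0 : (EuclideanSpace ℝ (Fin N))) ρ)ᶜ).indicator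
        (fun v => ENNReal.ofReal (‖v‖ ^ (-(rh N + ((N : ℝ) - 1))))) v := by
    intro v
    unfold Pm
    by_cases hv : ‖v‖ < ρ
    · have h1 : v ∈ ball (0 : (EuclideanSpace ℝ (Fin N))) ρ := by simpa using hv
      rw [if_pos hv, indicator_of_mem h1, ENNReal.ofReal_mul (by positivity)]
      exact le_self_add
    · have h1 : v ∈ (ball (0 : (EuclideanSpace ℝ (Fin N))) ρ)ᶜ := by simpa using hv
      rw [if_neg hv, indicator_of_mem h1, ENNReal.ofReal_mul (by positivity)]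
      exact le_add_self
  refine (lintegral_mono e1).trans ?_
  have m1 : Measurable ((ball (0 : (EuclideanSpace ℝ (Fin N))) ρ).indicator
        (fun v => ENNReal.ofReal (‖v‖ ^ (-((N : ℝ) - 1))))) :=
    ((measurable_norm.pow_const _).ennreal_ofReal).indicator measurableSet_ball
  have m2 : Measurable (((ball (0 : (EuclideanSpace ℝ (Fin N))) ρ)ᶜ).indicator
        (fun v => ENNReal.ofReal (‖v‖ ^ (-(rh N + ((N : ℝ) - 1)))))) :=
    ((measurable_norm.pow_const _).ennreal_ofReal).indicator measurableSet_ball.compl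
  rw [lintegral_add_left (m1.const_mul _), lintegral_const_mul _ m1, lintegral_const_mul _ m2,
    Fz_scale N ρ hρ0, lintegral_indicator measurableSet_ball, Rz_scale N (by omega) ρ hρ0]
  have a1 : ENNReal.ofReal (u ^ 2) * (ENNReal.ofReal ρ * Rz N) =
      Rz N * (ENNReal.ofReal κ * ENNReal.ofReal (u ^ rr N)) := by
    rw [← mul_assoc, ← ENNReal.ofReal_mul (by positivity), ← ENNReal.ofReal_mul (by positivity),
      mul_comm]
    congr 2
    rw [hρ, rr_eq, sub_eq_add_neg, Real.rpow_add hu0]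
    norm_num
    ring
  have a2 : ENNReal.ofReal (u * κ ^ rh N) * (ENNReal.ofReal (ρ ^ (1 - rh N)) * Fz N) =
      Fz N * (ENNReal.ofReal κ * ENNReal.ofReal (u ^ rr N)) := by
    rw [← mul_assoc, ← ENNReal.ofReal_mul (by positivity), ← ENNReal.ofReal_mul (by positivity),
      mul_comm]
    congr 2
    rw [hρ, Real.mul_rpow hκ.le (by positivity), ← Real.rpow_mul hu0.le]
    have e2 : u * κ ^ rh N * (κ ^ (1 - rh N) * u ^ (-ss N * (1 - rh N))) =
        (κ ^ rh N * κ ^ (1 - rh N)) * (u ^ (1 : ℝ) * u ^ (-ss N * (1 - rh N))) := by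
      rw [Real.rpow_one]; ring
    rw [e2, ← Real.rpow_add hκ, ← Real.rpow_add hu0]
    have e3 : rh N + (1 - rh N) = 1 := by ring
    have e4 : 1 + -ss N * (1 - rh N) = rr N := by
      have := ss_rh N
      rw [rr_eq]
      linear_combination this
    rw [e3, e4, Real.rpow_one]
  rw [a1, a2, add_mul]

/-- the majorant as a function of two points -/
noncomputable def Ff (N : ℕ) (κ : ℝ) (h : EuclideanSpace ℝ (Fin N) → ℝ)
    (p : EuclideanSpace ℝ (Fin N) × EuclideanSpace ℝ (Fin N)) : ℝ≥0∞ :=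
  ENNReal.ofReal (Pm N κ (h p.1) ‖p.2 - p.1‖)

/-- the product term -/
noncomputable def Qf (N : ℕ) (κ : ℝ) (h : EuclideanSpace ℝ (Fin N) → ℝ)
    (p : EuclideanSpace ℝ (Fin N) × EuclideanSpace ℝ (Fin N)) : ℝ≥0∞ :=
  ENNReal.ofReal (κ ^ (-((N : ℝ) - 1))) *
    (ENNReal.ofReal (h p.1 ^ rr N) * ENNReal.ofReal (h p.2 ^ rr N))

theorem Ff_meas (κ : ℝ) (h : (EuclideanSpace ℝ (Fin N)) → ℝ) (hh : Measurable h) : Measurable (Ff N κ h) := by
  have : Measurable fun p : (EuclideanSpace ℝ (Fin N)) × (EuclideanSpace ℝ (Fin N)) => (h p.1, ‖p.2 - p.1‖) :=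
    (hh.comp measurable_fst).prodMk (measurable_snd.sub measurable_fst).norm
  exact ((Pm_meas κ).comp this).ennreal_ofReal

theorem Qf_meas (κ : ℝ) (h : (EuclideanSpace ℝ (Fin N)) → ℝ) (hh : Measurable h) : Measurable (Qf N κ h) := by
  have : Measurable fun x : (EuclideanSpace ℝ (Fin N)) => ENNReal.ofReal (h x ^ rr N) :=
    (hh.pow_const _).ennreal_ofReal
  exact ((this.comp measurable_fst).mul (this.comp measurable_snd)).const_mul _

theorem key (hN : 2 ≤ N) (κ : ℝ) (hκ : 0 < κ) (h : (EuclideanSpace ℝ (Fin N)) → ℝ) (h0 : ∀ x, 0 ≤ h x) (x y : (EuclideanSpace ℝ (Fin N)))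
    (hxy : x ≠ y) :
    ENNReal.ofReal (h x) * ENNReal.ofReal (h y) * br N (y - x) ≤
      Ff N κ h (x, y) + Ff N κ h (y, x) + Qf N κ h (x, y) := by
  have ht : 0 < ‖y - x‖ := norm_pos_iff.2 (sub_ne_zero.2 hxy.symm)
  have hb : br N (y - x) ≤ ENNReal.ofReal (‖y - x‖ ^ (-((N : ℝ) - 1))) :=
    br_le N (by omega) _ (sub_ne_zero.2 hxy.symm)
  have hq : Qf N κ h (x, y) =
      ENNReal.ofReal (κ ^ (-((N : ℝ) - 1)) * (h x ^ rr N * h y ^ rr N)) := by
    unfold Qf
    rw [ENNReal.ofReal_mul (by positivity), ENNReal.ofReal_mul (Real.rpow_nonneg (h0 x) _)]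
  refine (mul_le_mul' le_rfl hb).trans ?_
  rw [← ENNReal.ofReal_mul (h0 x), ← ENNReal.ofReal_mul (mul_nonneg (h0 x) (h0 y)), hq]
  rcases le_total (h y) (h x) with hle | hle
  · have h1 := pointwise N hN κ (h x) (h y) ‖y - x‖ hκ (h0 y) hle ht
    refine (ENNReal.ofReal_le_ofReal h1).trans ?_
    refine ENNReal.ofReal_add_le.trans ?_
    exact add_le_add le_self_add le_rfl
  · have h1 := pointwise N hN κ (h y) (h x) ‖y - x‖ hκ (h0 x) hle ht
    rw [mul_comm (h y) (h x), mul_comm (h y ^ rr N)] at h1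
    refine (ENNReal.ofReal_le_ofReal h1).trans ?_
    refine ENNReal.ofReal_add_le.trans ?_
    refine add_le_add ?_ le_rfl
    have : ENNReal.ofReal (Pm N κ (h y) ‖y - x‖) = Ff N κ h (y, x) := by
      unfold Ff
      rw [norm_sub_rev x y]
    rw [this]
    exact le_add_self

theorem Ff_int (hN : 2 ≤ N) (κ : ℝ) (hκ : 0 < κ) (h : (EuclideanSpace ℝ (Fin N)) → ℝ) (hh : Measurable h)
    (h0 : ∀ x, 0 ≤ h x) :
    ∫⁻ x, ∫⁻ y, Ff N κ h (x, y) ≤
      (Rz N + Fz N) * (ENNReal.ofReal κ * ∫⁻ x, ENNReal.ofReal (h x ^ rr N)) := by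
  have h1 : ∀ x : (EuclideanSpace ℝ (Fin N)), ∫⁻ y, Ff N κ h (x, y) ≤ (Rz N + Fz N) *
      (ENNReal.ofReal κ * ENNReal.ofReal (h x ^ rr N)) := by
    intro x
    have : ∫⁻ y, Ff N κ h (x, y) = ∫⁻ v : (EuclideanSpace ℝ (Fin N)), ENNReal.ofReal (Pm N κ (h x) ‖v‖) :=
      lintegral_sub_right_eq_self (fun v : (EuclideanSpace ℝ (Fin N)) => ENNReal.ofReal (Pm N κ (h x) ‖v‖)) x
    rw [this]
    exact Pm_int hN κ (h x) hκ (h0 x)
  refine (lintegral_mono h1).trans (le_of_eq ?_)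
  have m : Measurable fun x : (EuclideanSpace ℝ (Fin N)) => ENNReal.ofReal (h x ^ rr N) := (hh.pow_const _).ennreal_ofReal
  rw [lintegral_const_mul _ (m.const_mul _), lintegral_const_mul _ m]

theorem Ff_swap (κ : ℝ) (h : (EuclideanSpace ℝ (Fin N)) → ℝ) (hh : Measurable h) :
    ∫⁻ x, ∫⁻ y, Ff N κ h (y, x) = ∫⁻ x, ∫⁻ y, Ff N κ h (x, y) :=
  lintegral_lintegral_swap (f := fun x y : (EuclideanSpace ℝ (Fin N)) => Ff N κ h (y, x))
    ((Ff_meas κ h hh).comp measurable_swap).aemeasurable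

theorem Qf_int (κ : ℝ) (h : (EuclideanSpace ℝ (Fin N)) → ℝ) (hh : Measurable h) :
    ∫⁻ x, ∫⁻ y, Qf N κ h (x, y) = ENNReal.ofReal (κ ^ (-((N : ℝ) - 1))) *
      (∫⁻ x, ENNReal.ofReal (h x ^ rr N)) ^ 2 := by
  have m : Measurable fun x : (EuclideanSpace ℝ (Fin N)) => ENNReal.ofReal (h x ^ rr N) := (hh.pow_const _).ennreal_ofReal
  unfold Qf
  have h1 : ∀ x : (EuclideanSpace ℝ (Fin N)), ∫⁻ y, ENNReal.ofReal (κ ^ (-((N : ℝ) - 1))) *
      (ENNReal.ofReal (h x ^ rr N) * ENNReal.ofReal (h y ^ rr N)) =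
      ENNReal.ofReal (κ ^ (-((N : ℝ) - 1))) * (ENNReal.ofReal (h x ^ rr N) *
        ∫⁻ y, ENNReal.ofReal (h y ^ rr N)) := by
    intro x
    rw [lintegral_const_mul _ (m.const_mul _), lintegral_const_mul _ m]
  refine (lintegral_congr h1).trans ?_
  rw [lintegral_const_mul _ (m.mul_const _), lintegral_mul_const _ m, sq]

/-- The inequality with a parameter. -/
theorem hls_param (hN : 2 ≤ N) (κ : ℝ) (hκ : 0 < κ) (h : (EuclideanSpace ℝ (Fin N)) → ℝ) (hh : Measurable h)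
    (h0 : ∀ x, 0 ≤ h x) :
    ∫⁻ x, ∫⁻ y, ENNReal.ofReal (h x) * ENNReal.ofReal (h y) * br N (y - x) ≤
      2 * (Rz N + Fz N) * (ENNReal.ofReal κ * ∫⁻ x, ENNReal.ofReal (h x ^ rr N)) +
        ENNReal.ofReal (κ ^ (-((N : ℝ) - 1))) * (∫⁻ x, ENNReal.ofReal (h x ^ rr N)) ^ 2 := by
  have hne : Nonempty (Fin N) := ⟨⟨0, by omega⟩⟩
  have hae : ∀ x : (EuclideanSpace ℝ (Fin N)), ∀ᵐ y ∂(volume : Measure (EuclideanSpace ℝ (Fin N))), x ≠ y := by
    intro x
    have : volume ({x} : Set (EuclideanSpace ℝ (Fin N))) = 0 := measure_singleton x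
    rw [ae_iff]
    convert this using 2
    ext y
    simp [eq_comm]
  have hFm := Ff_meas (N := N) κ h hh
  have hFx : ∀ x : (EuclideanSpace ℝ (Fin N)), Measurable fun y => Ff N κ h (x, y) :=
    fun x => hFm.comp measurable_prodMk_left
  have hFy : ∀ x : (EuclideanSpace ℝ (Fin N)), Measurable fun y => Ff N κ h (y, x) :=
    fun x => hFm.comp measurable_prodMk_right
  have h1 : ∀ x : (EuclideanSpace ℝ (Fin N)), ∫⁻ y, ENNReal.ofReal (h x) * ENNReal.ofReal (h y) * br N (y - x) ≤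
      (∫⁻ y, Ff N κ h (x, y)) + (∫⁻ y, Ff N κ h (y, x)) + ∫⁻ y, Qf N κ h (x, y) := by
    intro x
    have m3 : Measurable fun y => Ff N κ h (x, y) + Ff N κ h (y, x) := (hFx x).add (hFy x)
    rw [← lintegral_add_left (hFx x), ← lintegral_add_left m3]
    refine lintegral_mono_ae ?_
    filter_upwards [hae x] with y hy
    exact key hN κ hκ h h0 x y hy
  have m1 : Measurable fun x : (EuclideanSpace ℝ (Fin N)) => ∫⁻ y, Ff N κ h (x, y) := hFm.lintegral_prod_right'
  have m2 : Measurable fun x : (EuclideanSpace ℝ (Fin N)) => ∫⁻ y, Ff N κ h (y, x) :=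
    (hFm.comp measurable_swap).lintegral_prod_right'
  have step : ∫⁻ x, ∫⁻ y, ENNReal.ofReal (h x) * ENNReal.ofReal (h y) * br N (y - x) ≤
      (∫⁻ x, ∫⁻ y, Ff N κ h (x, y)) + (∫⁻ x, ∫⁻ y, Ff N κ h (y, x)) +
        ∫⁻ x, ∫⁻ y, Qf N κ h (x, y) := by
    refine (lintegral_mono h1).trans (le_of_eq ?_)
    have m3 : Measurable fun x : (EuclideanSpace ℝ (Fin N)) => (∫⁻ y, Ff N κ h (x, y)) + ∫⁻ y, Ff N κ h (y, x) :=
      m1.add m2
    rw [lintegral_add_left m3, lintegral_add_left m1]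
  rw [Ff_swap κ h hh, Qf_int κ h hh] at step
  refine step.trans ?_
  refine add_le_add ?_ le_rfl
  have h2 := Ff_int hN κ hκ h hh h0
  refine (add_le_add h2 h2).trans (le_of_eq ?_)
  ring

/-- **The inequality of Hardy, Littlewood and Sobolev**, for nonnegative real functions. -/
theorem hls_real (hN : 2 ≤ N) (h : (EuclideanSpace ℝ (Fin N)) → ℝ) (hh : Measurable h) (h0 : ∀ x, 0 ≤ h x) :
    ∫⁻ x, ∫⁻ y, ENNReal.ofReal (h x) * ENNReal.ofReal (h y) * br N (y - x) ≤
      (2 * (Rz N + Fz N) + 1) * (∫⁻ x, ENNReal.ofReal (h x ^ rr N)) ^ (1 + 1 / (N : ℝ)) := by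
  have hN' : (2 : ℝ) ≤ N := by exact_mod_cast hN
  have hN0 : (0 : ℝ) < N := by linarith
  have m : Measurable fun x : (EuclideanSpace ℝ (Fin N)) => ENNReal.ofReal (h x ^ rr N) := (hh.pow_const _).ennreal_ofReal
  set J : ℝ≥0∞ := ∫⁻ x, ENNReal.ofReal (h x ^ rr N) with hJ
  rcases eq_or_ne J 0 with hJ0 | hJ0
  · have h1 : ∀ᵐ x ∂(volume : Measure (EuclideanSpace ℝ (Fin N))), h x = 0 := by
      have := (lintegral_eq_zero_iff m).1 (hJ.symm.trans hJ0)
      filter_upwards [this] with x hx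
      have h2 : h x ^ rr N ≤ 0 := by simpa using hx
      have h3 : h x ^ rr N = 0 := le_antisymm h2 (Real.rpow_nonneg (h0 x) _)
      exact (Real.rpow_eq_zero (h0 x) (rr_pos N hN).ne').1 h3
    have : ∫⁻ x, ∫⁻ y, ENNReal.ofReal (h x) * ENNReal.ofReal (h y) * br N (y - x) = 0 := by
      rw [lintegral_eq_zero_iff']
      · filter_upwards [h1] with x hx
        rw [hx]
        simp
      · have mm : Measurable (Function.uncurry fun x y : (EuclideanSpace ℝ (Fin N)) =>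
          ENNReal.ofReal (h x) * ENNReal.ofReal (h y) * br N (y - x)) := by
          exact ((hh.comp measurable_fst).ennreal_ofReal.mul
            (hh.comp measurable_snd).ennreal_ofReal).mul
            ((br_meas N).comp (measurable_snd.sub measurable_fst))
        exact mm.lintegral_prod_right'.aemeasurable
    rw [this]
    exact zero_le
  rcases eq_or_ne J ∞ with hJt | hJt
  · rw [hJt, ENNReal.top_rpow_of_pos (by positivity), ENNReal.mul_top (by simp)]
    exact le_top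
  set j : ℝ := J.toReal with hj
  have hj0 : 0 < j := ENNReal.toReal_pos hJ0 hJt
  have hJj : J = ENNReal.ofReal j := (ENNReal.ofReal_toReal hJt).symm
  have h1 := hls_param hN (j ^ (1 / (N : ℝ))) (by positivity) h hh h0
  refine h1.trans (le_of_eq ?_)
  rw [← hJ, hJj, ENNReal.ofReal_rpow_of_pos hj0, add_mul, one_mul]
  congr 1
  · rw [← ENNReal.ofReal_mul (by positivity)]
    congr 2
    rw [Real.rpow_add hj0, Real.rpow_one, mul_comm]
  · rw [← ENNReal.ofReal_pow hj0.le, ← ENNReal.ofReal_mul (by positivity)]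
    congr 1
    rw [← Real.rpow_mul hj0.le, ← Real.rpow_natCast, ← Real.rpow_add hj0]
    congr 1
    push_cast
    field_simp
    ring

end Pool.Agent.Helper66x.CE
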