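import Mathlib
import Pool.Agent.N248.SD.H
import Pool.Agent.H789R2.FR.Smooth
import Pool.Agent.Helper66x.CE.HLS
set_option autoImplicit false

/-! The convolution inequality for the square of the Fourier transform of a bounded density on the
sphere. -/

namespace Pool.Agent.Helper66x.CE

open MeasureTheory Set Metric Complex
open scoped ENNReal NNReal RealInnerProductSpace
open Pool.Agent.N248.SD hiding E
open Pool.Agent.H789R2.FR (E sg T sg_finite decay)
open Pool.Agent.R412.RT (ee ee_norm ee_meas)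

variable {n : ℕ}

/-- surface measure on the unit sphere -/
noncomputable abbrev sgm (n : ℕ) : Measure (sphere (0 : E n) 1) :=
  (volume : Measure (E n)).toSphere

/-- the Fourier transform of the measure `f dσ` -/
noncomputable abbrev F (f : sphere (0 : E n) 1 → ℂ) (ξ : E n) : ℂ :=
  ∫ x, Complex.exp (-(2 * Real.pi * ⟪(x : E n), ξ⟫ : ℝ) * I) * f x ∂(sgm n)

/-- the phase map -/
noncomputable def pm (x : sphere (0 : E n) 1) : E n := -(x : E n)

theorem pm_meas : Measurable (pm (n := n)) := measurable_subtype_coe.neg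

theorem W_pm (f : sphere (0 : E n) 1 → ℂ) (u : E n) : W (sgm n) pm f u = F f u := by
  unfold W F
  refine integral_congr_ae (Filter.Eventually.of_forall fun x => ?_)
  simp only
  congr 1
  unfold ee pm
  rw [inner_neg_left]
  congr 1
  push_cast
  ring

theorem F_meas (f : sphere (0 : E n) 1 → ℂ) (hf : AEStronglyMeasurable f (sgm n)) :
    Measurable (F f) := by
  obtain ⟨g, hg, hfg⟩ := hf
  have h1 : F f = F g := by
    funext ξ
    refine integral_congr_ae ?_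
    filter_upwards [hfg] with x hx
    rw [hx]
  rw [h1]
  have h2 : StronglyMeasurable fun p : E n × sphere (0 : E n) 1 =>
      Complex.exp (-(2 * Real.pi * ⟪(p.2 : E n), p.1⟫ : ℝ) * I) * g p.2 := by
    refine Measurable.stronglyMeasurable ?_
    refine Measurable.mul ?_ (hg.measurable.comp measurable_snd)
    have : Measurable fun p : E n × sphere (0 : E n) 1 => (⟪(p.2 : E n), p.1⟫ : ℝ) :=
      (measurable_subtype_coe.comp measurable_snd).inner measurable_fst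
    fun_prop
  exact h2.integral_prod_right'.measurable

/-- the decay of the Fourier transform of the surface measure -/
theorem one_decay (n : ℕ) (hn : 2 ≤ n) : ∃ C : ℝ≥0, ∀ u : E n,
    ‖F (fun _ => (1 : ℂ)) u‖ₑ ^ 2 ≤ C * br n u := by
  obtain ⟨C, hC, hD⟩ := decay n hn
  have hn' : (2 : ℝ) ≤ n := by exact_mod_cast hn
  have hT : ∀ u : E n, F (fun _ => (1 : ℂ)) u = T (fun _ => (1 : ℂ)) ((2 * Real.pi) • u) := by
    intro u
    unfold F T sg
    rw [integral_map measurable_subtype_coe.aemeasurable]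
    · refine integral_congr_ae (Filter.Eventually.of_forall fun x => ?_)
      simp only
      congr 2
      rw [real_inner_smul_left, real_inner_comm]
    · refine Measurable.aestronglyMeasurable ?_
      fun_prop
  set S : ℝ := (sgm n).real univ with hS
  have hS0 : 0 ≤ S := measureReal_nonneg
  have hb : ∀ u : E n, ‖F (fun _ => (1 : ℂ)) u‖ ≤ S := by
    intro u
    have := norm_integral_le_of_norm_le_const (μ := sgm n)
      (f := fun x : sphere (0 : E n) 1 =>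
        Complex.exp (-(2 * Real.pi * ⟪(x : E n), u⟫ : ℝ) * I) * 1) (C := 1)
      (Filter.Eventually.of_forall fun x => by
        have e : (-(2 * Real.pi * ⟪(x : E n), u⟫ : ℝ) : ℂ) * I =
          ((-(2 * Real.pi * ⟪(x : E n), u⟫) : ℝ) : ℂ) * I := by push_cast; ring
        rw [norm_mul, e, Complex.norm_exp_ofReal_mul_I]
        simp)
    rw [one_mul] at this
    exact this
  set K : ℝ := (S ^ 2 + C ^ 2) * 2 ^ (((n : ℝ) - 1) / 2) with hK
  have hK0 : 0 ≤ K := by positivity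
  refine ⟨⟨K, hK0⟩, fun u => ?_⟩
  have hmain : ‖F (fun _ => (1 : ℂ)) u‖ ^ 2 ≤ K * (1 + ‖u‖ ^ 2) ^ (-(((n : ℝ) - 1) / 2)) := by
    rcases le_or_gt ‖u‖ 1 with h1 | h1
    · have h2 : (2 : ℝ) ^ (-(((n : ℝ) - 1) / 2)) ≤ (1 + ‖u‖ ^ 2) ^ (-(((n : ℝ) - 1) / 2)) := by
        refine Real.rpow_le_rpow_of_nonpos (by positivity) ?_ (by linarith)
        nlinarith [norm_nonneg u]
      calc ‖F (fun _ => (1 : ℂ)) u‖ ^ 2 ≤ S ^ 2 := by
            have := hb u
            gcongr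
        _ ≤ (S ^ 2 + C ^ 2) * (2 ^ (((n : ℝ) - 1) / 2) * 2 ^ (-(((n : ℝ) - 1) / 2))) := by
            rw [← Real.rpow_add (by norm_num), add_neg_cancel, Real.rpow_zero]
            nlinarith [sq_nonneg C]
        _ ≤ (S ^ 2 + C ^ 2) * (2 ^ (((n : ℝ) - 1) / 2) *
            (1 + ‖u‖ ^ 2) ^ (-(((n : ℝ) - 1) / 2))) := by gcongr
        _ = _ := by rw [hK]; ring
    · have hu0 : 0 < ‖u‖ := by linarith
      have hux : u ≠ 0 := norm_pos_iff.1 hu0
      have h2 := hD ((2 * Real.pi) • u) (smul_ne_zero (by positivity) hux)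
      rw [← hT, norm_smul, Real.norm_of_nonneg (by positivity)] at h2
      have h3 : (2 * Real.pi * ‖u‖) ^ (-((n : ℝ) - 1) / 2) ≤ ‖u‖ ^ (-((n : ℝ) - 1) / 2) := by
        refine Real.rpow_le_rpow_of_nonpos hu0 ?_ (by linarith)
        have := Real.pi_gt_three
        nlinarith
      have h4 : (‖u‖ ^ (-((n : ℝ) - 1) / 2)) ^ 2 ≤
          2 ^ (((n : ℝ) - 1) / 2) * (1 + ‖u‖ ^ 2) ^ (-(((n : ℝ) - 1) / 2)) := by
        have e1 : (‖u‖ ^ (-((n : ℝ) - 1) / 2)) ^ 2 = (‖u‖ ^ 2) ^ (-(((n : ℝ) - 1) / 2)) := by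
          rw [← Real.rpow_natCast, ← Real.rpow_mul hu0.le, ← Real.rpow_natCast ‖u‖ 2,
            ← Real.rpow_mul hu0.le]
          congr 1
          push_cast
          ring
        have e2 : (2 : ℝ) ^ (((n : ℝ) - 1) / 2) * (1 + ‖u‖ ^ 2) ^ (-(((n : ℝ) - 1) / 2)) =
            ((1 + ‖u‖ ^ 2) / 2) ^ (-(((n : ℝ) - 1) / 2)) := by
          rw [Real.div_rpow (by positivity) (by norm_num), Real.rpow_neg (by norm_num : (0:ℝ) ≤ 2)]
          field_simp
        rw [e1, e2]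
        refine Real.rpow_le_rpow_of_nonpos (by positivity) ?_ (by linarith)
        nlinarith
      calc ‖F (fun _ => (1 : ℂ)) u‖ ^ 2 ≤ (C * ‖u‖ ^ (-((n : ℝ) - 1) / 2)) ^ 2 := by
            gcongr
            exact h2.trans (by gcongr)
        _ = C ^ 2 * (‖u‖ ^ (-((n : ℝ) - 1) / 2)) ^ 2 := by ring
        _ ≤ C ^ 2 * (2 ^ (((n : ℝ) - 1) / 2) * (1 + ‖u‖ ^ 2) ^ (-(((n : ℝ) - 1) / 2))) := by
            gcongr
        _ ≤ (S ^ 2 + C ^ 2) *
            (2 ^ (((n : ℝ) - 1) / 2) * (1 + ‖u‖ ^ 2) ^ (-(((n : ℝ) - 1) / 2))) := by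
            gcongr
            nlinarith [sq_nonneg S]
        _ = _ := by rw [hK]; ring
  have e : ‖F (fun _ => (1 : ℂ)) u‖ₑ ^ 2 = ENNReal.ofReal (‖F (fun _ => (1 : ℂ)) u‖ ^ 2) := by
    rw [ENNReal.ofReal_pow (norm_nonneg _), ofReal_norm]
  rw [e]
  refine (ENNReal.ofReal_le_ofReal hmain).trans (le_of_eq ?_)
  rw [ENNReal.ofReal_mul hK0]
  unfold br
  congr 1
  exact (ENNReal.ofReal_eq_coe_nnreal hK0)

/-- the inequality of Hardy, Littlewood and Sobolev for integrable functions -/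
theorem hls (hn : 2 ≤ n) (a : E n → ℝ≥0∞) (ha : Measurable a) (ha1 : ∫⁻ x, a x ≠ ∞) :
    En n a ≤ (2 * (Rz n + Fz n) + 1) * (∫⁻ x, a x ^ rr n) ^ (1 + 1 / (n : ℝ)) := by
  have hfin : ∀ᵐ x ∂(volume : Measure (E n)), a x < ∞ := ae_lt_top ha ha1
  have h := hls_real (N := n) hn (fun x => (a x).toReal) ha.ennreal_toReal
    (fun x => ENNReal.toReal_nonneg)
  have e1 : ∫⁻ x, ENNReal.ofReal ((a x).toReal ^ rr n) = ∫⁻ x, a x ^ rr n := by
    refine lintegral_congr_ae ?_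
    filter_upwards [hfin] with x hx
    rw [← ENNReal.ofReal_rpow_of_nonneg ENNReal.toReal_nonneg (rr_pos n hn).le,
      ENNReal.ofReal_toReal hx.ne]
  have e2 : ∫⁻ x, ∫⁻ y, ENNReal.ofReal (a x).toReal * ENNReal.ofReal (a y).toReal * br n (y - x) =
      En n a := by
    unfold En
    refine lintegral_congr_ae ?_
    filter_upwards [hfin] with x hx
    refine lintegral_congr_ae ?_
    filter_upwards [hfin] with y hy
    rw [ENNReal.ofReal_toReal hx.ne, ENNReal.ofReal_toReal hy.ne]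
  rw [e1, e2] at h
  exact h

/-- the bilinear inequality for integrable functions -/
theorem bil (n : ℕ) (hn : 2 ≤ n) : ∃ C : ℝ≥0, ∀ f : sphere (0 : E n) 1 → ℂ,
    MemLp f ∞ (sgm n) → ∀ a b : E n → ℝ≥0∞, Measurable a → Measurable b →
    ∫⁻ x, a x ≠ ∞ → ∫⁻ x, b x ≠ ∞ →
    ∫⁻ y, ∫⁻ w, a y * b w * ‖F f (w - y)‖ₑ ^ 2 ≤
      C * eLpNorm f ∞ (sgm n) ^ 2 * ((∫⁻ x, a x ^ rr n) ^ (1 / rr n) *
        (∫⁻ x, b x ^ rr n) ^ (1 / rr n)) := by
  obtain ⟨C, hC⟩ := one_decay n hn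
  have hn' : (2 : ℝ) ≤ n := by exact_mod_cast hn
  set L : ℝ≥0∞ := 2 * (Rz n + Fz n) + 1 with hL
  have hLt : L ≠ ∞ := by
    have h1 := Rz_ne_top n (by omega)
    have h2 := Fz_ne_top n hn
    simp only [hL]
    finiteness
  refine ⟨C * L.toNNReal, fun f hf a b ha hb ha1 hb1 => ?_⟩
  set M : ℝ := (eLpNorm f ∞ (sgm n)).toReal with hM
  have hM0 : 0 ≤ M := ENNReal.toReal_nonneg
  have hMt : eLpNorm f ∞ (sgm n) = ENNReal.ofReal M := (ENNReal.ofReal_toReal hf.2.ne).symm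
  have hfM : ∀ᵐ x ∂(sgm n), ‖f x‖ ≤ M := by
    have := ae_le_eLpNormEssSup (f := f) (μ := sgm n)
    filter_upwards [this] with x hx
    rw [← eLpNorm_exponent_top, hMt, ← ofReal_norm] at hx
    exact (ENNReal.ofReal_le_ofReal_iff hM0).1 hx
  have hfi : Integrable f (sgm n) := (hf.mono_exponent le_top).integrable le_rfl
  have : IsFiniteMeasure ((volume : Measure (E n)).withDensity a) :=
    isFiniteMeasure_withDensity ha1
  have : IsFiniteMeasure ((volume : Measure (E n)).withDensity b) :=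
    isFiniteMeasure_withDensity hb1
  have h := conv (sgm n) ((volume : Measure (E n)).withDensity a)
    ((volume : Measure (E n)).withDensity b) pm pm_meas f hfi (fun _ => M)
    (integrable_const _) (fun _ => hM0) hfM
  have hWG : ∀ u : E n, W (sgm n) pm (fun _ => ((M : ℝ) : ℂ)) u = (M : ℂ) * F (fun _ => 1) u := by
    intro u
    rw [W_pm, ← integral_const_mul]
    refine integral_congr_ae (Filter.Eventually.of_forall fun x => ?_)
    simp only
    ring
  have hkm : Measurable fun u : E n => ‖F (fun _ => (1 : ℂ)) u‖ₑ ^ 2 :=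
    (F_meas _ aestronglyMeasurable_const).enorm.pow_const 2
  have hup : ∀ c : E n → ℝ≥0∞, Measurable c → ∫⁻ x, c x ≠ ∞ →
      ∫⁻ ω, ‖W (sgm n) pm (fun _ => ((M : ℝ) : ℂ)) (ω.2 - ω.1)‖ₑ ^ 2
        ∂(((volume : Measure (E n)).withDensity c).prod
        ((volume : Measure (E n)).withDensity c)) ≤
      ENNReal.ofReal M ^ 2 * (C * (L * (∫⁻ x, c x ^ rr n) ^ (1 + 1 / (n : ℝ)))) := by
    intro c hc hc1
    have : IsFiniteMeasure ((volume : Measure (E n)).withDensity c) :=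
      isFiniteMeasure_withDensity hc1
    simp_rw [hWG]
    rw [dbl c c (fun u : E n => ‖(M : ℂ) * F (fun _ => 1) u‖ₑ ^ 2) hc hc
      (by simp_rw [enorm_mul, mul_pow]; exact hkm.const_mul _)]
    have e1 : ∀ y w : E n, c y * c w * ‖(M : ℂ) * F (fun _ => 1) (w - y)‖ₑ ^ 2 ≤
        ENNReal.ofReal M ^ 2 * C * (c y * c w * br n (w - y)) := by
      intro y w
      have e2 : ‖(M : ℂ)‖ₑ = ENNReal.ofReal M := by
        rw [← ofReal_norm, Complex.norm_real, Real.norm_of_nonneg hM0]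
      rw [enorm_mul, e2, mul_pow]
      calc c y * c w * (ENNReal.ofReal M ^ 2 * ‖F (fun _ => (1 : ℂ)) (w - y)‖ₑ ^ 2)
          ≤ c y * c w * (ENNReal.ofReal M ^ 2 * (C * br n (w - y))) :=
            mul_le_mul' le_rfl (mul_le_mul' le_rfl (hC _))
        _ = _ := by ring
    have hcont : ENNReal.ofReal M ^ 2 * C ≠ ∞ := by finiteness
    calc ∫⁻ y, ∫⁻ w, c y * c w * ‖(M : ℂ) * F (fun _ => 1) (w - y)‖ₑ ^ 2
        ≤ ∫⁻ y, ∫⁻ w, ENNReal.ofReal M ^ 2 * C * (c y * c w * br n (w - y)) :=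
          lintegral_mono fun y => lintegral_mono fun w => e1 y w
      _ = ENNReal.ofReal M ^ 2 * C * En n c := by
          unfold En
          rw [← lintegral_const_mul' _ _ hcont]
          refine lintegral_congr fun y => ?_
          rw [lintegral_const_mul' _ _ hcont]
      _ ≤ ENNReal.ofReal M ^ 2 * C * (L * (∫⁻ x, c x ^ rr n) ^ (1 + 1 / (n : ℝ))) := by
          gcongr
          exact hls hn c hc hc1
      _ = _ := by ring
  have hlow : ∫⁻ ω, ‖W (sgm n) pm f (ω.2 - ω.1)‖ₑ ^ 2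
        ∂(((volume : Measure (E n)).withDensity a).prod
        ((volume : Measure (E n)).withDensity b)) =
      ∫⁻ y, ∫⁻ w, a y * b w * ‖F f (w - y)‖ₑ ^ 2 := by
    simp_rw [W_pm]
    exact dbl a b (fun u : E n => ‖F f u‖ₑ ^ 2) ha hb ((F_meas f hf.1).enorm.pow_const 2)
  rw [hlow] at h
  have h2 := h.trans (mul_le_mul' (hup b hb hb1) (hup a ha ha1))
  have h3 : (∫⁻ y, ∫⁻ w, a y * b w * ‖F f (w - y)‖ₑ ^ 2) ≤
      ((ENNReal.ofReal M ^ 2 * (C * (L * (∫⁻ x, b x ^ rr n) ^ (1 + 1 / (n : ℝ))))) *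
      (ENNReal.ofReal M ^ 2 * (C * (L * (∫⁻ x, a x ^ rr n) ^ (1 + 1 / (n : ℝ)))))) ^
        (1 / 2 : ℝ) := by
    have h4 := ENNReal.rpow_le_rpow h2 (show (0 : ℝ) ≤ 1 / 2 by norm_num)
    refine le_trans (le_of_eq ?_) h4
    rw [← ENNReal.rpow_natCast, ← ENNReal.rpow_mul]
    norm_num
  refine h3.trans (le_of_eq ?_)
  have hrr : (1 + 1 / (n : ℝ)) * (1 / 2) = 1 / rr n := by
    unfold rr; field_simp
  rw [hMt, ENNReal.coe_mul, ENNReal.coe_toNNReal hLt]
  have e3 : ∀ X Y Z P Q : ℝ≥0∞, X ^ 2 * (Y * (Z * P)) * (X ^ 2 * (Y * (Z * Q))) =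
      (Y * Z * X ^ 2) ^ 2 * (P * Q) := by intros; ring
  rw [e3, ENNReal.mul_rpow_of_nonneg _ _ (by norm_num), ENNReal.mul_rpow_of_nonneg _ _
    (by norm_num), ← ENNReal.rpow_mul, ← ENNReal.rpow_mul, hrr, ← ENNReal.rpow_natCast _ 2,
    ← ENNReal.rpow_mul]
  norm_num
  rw [mul_comm ((∫⁻ x, b x ^ rr n) ^ (rr n)⁻¹)]

end Pool.Agent.Helper66x.CE
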