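import Mathlib
import Pool.Agent.Helper66x.CE.Main
set_option autoImplicit false

/-! Duality: from the bilinear inequality to the bound of the convolution operator, and the
consequences for superlevel sets. -/

namespace Pool.Agent.Helper66x.CE

open MeasureTheory Set Metric Complex Filter Topology
open scoped ENNReal NNReal RealInnerProductSpace
open Pool.Agent.N248.SD hiding E
open Pool.Agent.H789R2.FR (E sg T sg_finite decay)

variable {n : ℕ}

/-- truncation -/
noncomputable def tr (j : ℕ) (a : E n → ℝ≥0∞) (x : E n) : ℝ≥0∞ :=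
  (ball (0 : E n) j).indicator (fun x => min (a x) j) x

theorem tr_meas (j : ℕ) (a : E n → ℝ≥0∞) (ha : Measurable a) : Measurable (tr j a) :=
  (ha.min measurable_const).indicator measurableSet_ball

theorem tr_le (j : ℕ) (a : E n → ℝ≥0∞) (x : E n) : tr j a x ≤ a x := by
  unfold tr
  by_cases hx : x ∈ ball (0 : E n) j
  · rw [indicator_of_mem hx]; exact min_le_left _ _
  · rw [indicator_of_notMem hx]; exact zero_le

theorem tr_le' (j : ℕ) (a : E n → ℝ≥0∞) (x : E n) :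
    tr j a x ≤ (ball (0 : E n) j).indicator (fun _ => (j : ℝ≥0∞)) x := by
  unfold tr
  by_cases hx : x ∈ ball (0 : E n) j
  · rw [indicator_of_mem hx, indicator_of_mem hx]; exact min_le_right _ _
  · rw [indicator_of_notMem hx, indicator_of_notMem hx]

theorem tr_mono (a : E n → ℝ≥0∞) (x : E n) : Monotone fun j => tr j a x := by
  intro i j hij
  simp only
  unfold tr
  have hij' : (i : ℝ) ≤ j := by exact_mod_cast hij
  by_cases hx : x ∈ ball (0 : E n) i
  · have hx2 : x ∈ ball (0 : E n) j := ball_subset_ball hij' hx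
    rw [indicator_of_mem hx, indicator_of_mem hx2]
    exact min_le_min le_rfl (by exact_mod_cast hij)
  · rw [indicator_of_notMem hx]; exact zero_le

theorem tr_tendsto (a : E n → ℝ≥0∞) (x : E n) :
    Tendsto (fun j => tr j a x) atTop (𝓝 (a x)) := by
  have h1 : Tendsto (fun j : ℕ => min (a x) (j : ℝ≥0∞)) atTop (𝓝 (min (a x) ∞)) :=
    tendsto_const_nhds.min ENNReal.tendsto_nat_nhds_top
  rw [min_eq_left le_top] at h1
  refine h1.congr' ?_
  obtain ⟨k, hk⟩ := exists_nat_gt ‖x‖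
  filter_upwards [eventually_ge_atTop k] with j hj
  unfold tr
  have : x ∈ ball (0 : E n) j := by
    rw [mem_ball_zero_iff]
    exact hk.trans_le (by exact_mod_cast hj)
  rw [indicator_of_mem this]

theorem tr_int (j : ℕ) (a : E n → ℝ≥0∞) (p : ℝ) (hp : 0 < p) :
    ∫⁻ x, tr j a x ^ p ≠ ∞ := by
  have h : ∫⁻ x, tr j a x ^ p ≤ ∫⁻ x, (ball (0 : E n) j).indicator (fun _ => (j : ℝ≥0∞) ^ p) x := by
    refine lintegral_mono fun x => ?_
    refine (ENNReal.rpow_le_rpow (tr_le' j a x) hp.le).trans ?_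
    by_cases hx : x ∈ ball (0 : E n) j
    · rw [indicator_of_mem hx, indicator_of_mem hx]
    · rw [indicator_of_notMem hx, indicator_of_notMem hx, ENNReal.zero_rpow_of_pos hp]
  refine ne_top_of_le_ne_top ?_ h
  rw [lintegral_indicator measurableSet_ball, setLIntegral_const]
  exact ENNReal.mul_ne_top (ENNReal.rpow_ne_top_of_nonneg hp.le (by simp))
    measure_ball_lt_top.ne

/-- the exponent `2n/(n-1)` -/
noncomputable def sp (n : ℕ) : ℝ := 2 * n / (n - 1)

theorem sp_pos (hn : 2 ≤ n) : 1 < sp n := by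
  have hn' : (2 : ℝ) ≤ n := by exact_mod_cast hn
  unfold sp
  rw [lt_div_iff₀ (by linarith)]
  linarith

theorem sp_conj (hn : 2 ≤ n) : 1 / rr n + 1 / sp n = 1 := by
  have hn' : (2 : ℝ) ≤ n := by exact_mod_cast hn
  have h1 : (n : ℝ) - 1 ≠ 0 := by linarith
  unfold rr sp
  field_simp
  ring

theorem sp_mul (hn : 2 ≤ n) : (sp n - 1) * rr n = sp n := by
  have hn' : (2 : ℝ) ≤ n := by exact_mod_cast hn
  have h1 : (n : ℝ) - 1 ≠ 0 := by linarith
  unfold rr sp
  field_simp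
  ring

/-- the limit of truncations -/
theorem lim_le (h : E n → ℝ≥0∞) (u : ℕ → E n → ℝ≥0∞) (hu : ∀ j, Measurable (u j))
    (hlim : ∀ x, Tendsto (fun j => u j x) atTop (𝓝 (h x))) (s : ℝ) (Λ : ℝ≥0∞)
    (H : ∀ j, ∫⁻ x, u j x ^ s ≤ Λ) : ∫⁻ x, h x ^ s ≤ Λ := by
  have hl : ∀ x, Tendsto (fun j => u j x ^ s) atTop (𝓝 (h x ^ s)) := fun x =>
    ((ENNReal.continuous_rpow_const (y := s)).tendsto _).comp (hlim x)
  calc ∫⁻ x, h x ^ s = ∫⁻ x, liminf (fun j => u j x ^ s) atTop :=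
        lintegral_congr fun x => (hl x).liminf_eq.symm
    _ ≤ liminf (fun j => ∫⁻ x, u j x ^ s) atTop :=
        lintegral_liminf_le fun j => (hu j).pow_const s
    _ ≤ liminf (fun _ : ℕ => Λ) atTop := liminf_le_liminf (Eventually.of_forall H)
    _ = Λ := by simp

/-- duality -/
theorem dual (hn : 2 ≤ n) (h : E n → ℝ≥0∞) (hh : Measurable h) (Λ : ℝ≥0∞)
    (H : ∀ b : E n → ℝ≥0∞, Measurable b → ∫⁻ x, b x ≠ ∞ →
      ∫⁻ x, h x * b x ≤ Λ * (∫⁻ x, b x ^ rr n) ^ (1 / rr n)) :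
    ∫⁻ x, h x ^ sp n ≤ Λ ^ sp n := by
  have hs := sp_pos hn
  have hr := rr_pos n hn
  refine lim_le h (fun j => tr j h) (fun j => tr_meas j h hh) (tr_tendsto h) (sp n)
    _ fun j => ?_
  set J : ℝ≥0∞ := ∫⁻ x, tr j h x ^ sp n with hJ
  have hJt : J ≠ ∞ := tr_int j h (sp n) (by linarith)
  have h1 := H (fun x => tr j h x ^ (sp n - 1)) ((tr_meas j h hh).pow_const _)
    (tr_int j h (sp n - 1) (by linarith))
  have h2 : ∫⁻ x, (tr j h x ^ (sp n - 1)) ^ rr n = J := by
    simp_rw [← ENNReal.rpow_mul, sp_mul hn]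
    rfl
  rw [h2] at h1
  have h3 : J ≤ ∫⁻ x, h x * tr j h x ^ (sp n - 1) := by
    refine lintegral_mono fun x => ?_
    have e : tr j h x ^ sp n = tr j h x * tr j h x ^ (sp n - 1) := by
      have e1 : sp n = 1 + (sp n - 1) := by ring
      nth_rewrite 1 [e1]
      rw [ENNReal.rpow_add_of_nonneg _ _ (by norm_num) (by linarith), ENNReal.rpow_one]
    rw [e]
    exact mul_le_mul' (tr_le j h x) le_rfl
  have h4 : J ≤ Λ * J ^ (1 / rr n) := h3.trans h1
  rcases eq_or_ne J 0 with h0 | h0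
  · rw [h0]; exact zero_le
  have h5 : J ^ (1 / sp n) ≤ Λ := by
    have e : J ^ (1 / sp n) = J / J ^ (1 / rr n) := by
      rw [ENNReal.eq_div_iff]
      · rw [← ENNReal.rpow_add _ _ h0 hJt, sp_conj hn, ENNReal.rpow_one]
      · exact (ENNReal.rpow_pos (pos_iff_ne_zero.2 h0) hJt).ne'
      · exact ENNReal.rpow_ne_top_of_nonneg (by positivity) hJt
    rw [e]
    refine ENNReal.div_le_of_le_mul h4
  have h6 := ENNReal.rpow_le_rpow h5 (show 0 ≤ sp n by linarith)
  rwa [← ENNReal.rpow_mul, one_div_mul_cancel (by linarith), ENNReal.rpow_one] at h6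

/-- **The convolution inequality.** -/
theorem conv_ineq (n : ℕ) (hn : 2 ≤ n) : ∃ C : ℝ≥0, ∀ f : sphere (0 : E n) 1 → ℂ,
    MemLp f ∞ (sgm n) → ∀ a : E n → ℝ≥0∞, Measurable a →
    (∫⁻ x, (∫⁻ y, ‖F f (x - y)‖ₑ ^ 2 * a y) ^ sp n) ^ (1 / sp n) ≤
      C * eLpNorm f ∞ (sgm n) ^ 2 * (∫⁻ x, a x ^ rr n) ^ (1 / rr n) := by
  obtain ⟨C, hC⟩ := bil n hn
  have hs := sp_pos hn
  have hr := rr_pos n hn
  refine ⟨C, fun f hf a ha => ?_⟩
  set Λ : ℝ≥0∞ := C * eLpNorm f ∞ (sgm n) ^ 2 * (∫⁻ x, a x ^ rr n) ^ (1 / rr n) with hΛ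
  have hFm : Measurable fun u : E n => ‖F f u‖ₑ ^ 2 := (F_meas f hf.1).enorm.pow_const 2
  have hcm : ∀ c : E n → ℝ≥0∞, Measurable c →
      Measurable fun x : E n => ∫⁻ y, ‖F f (x - y)‖ₑ ^ 2 * c y := by
    intro c hc
    have : Measurable fun p : E n × E n => ‖F f (p.1 - p.2)‖ₑ ^ 2 * c p.2 :=
      (hFm.comp (measurable_fst.sub measurable_snd)).mul (hc.comp measurable_snd)
    exact this.lintegral_prod_right'
  have key : ∀ j : ℕ, ∫⁻ x, (∫⁻ y, ‖F f (x - y)‖ₑ ^ 2 * tr j a y) ^ sp n ≤ Λ ^ sp n := by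
    intro j
    refine dual hn _ (hcm _ (tr_meas j a ha)) Λ fun b hb hb1 => ?_
    have h1 := hC f hf (tr j a) b (tr_meas j a ha) hb
      (by have := tr_int j a 1 one_pos; simpa using this) hb1
    have hm : Measurable (Function.uncurry fun y w : E n =>
        tr j a y * b w * ‖F f (w - y)‖ₑ ^ 2) :=
      (((tr_meas j a ha).comp measurable_fst).mul (hb.comp measurable_snd)).mul
        (hFm.comp (measurable_snd.sub measurable_fst))
    rw [lintegral_lintegral_swap hm.aemeasurable] at h1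
    have e : ∫⁻ x, (∫⁻ y, ‖F f (x - y)‖ₑ ^ 2 * tr j a y) * b x =
        ∫⁻ w, ∫⁻ y, tr j a y * b w * ‖F f (w - y)‖ₑ ^ 2 := by
      refine lintegral_congr fun w => ?_
      rw [← lintegral_mul_const _ (by
        exact (hFm.comp (measurable_const.sub measurable_id)).mul (tr_meas j a ha))]
      refine lintegral_congr fun y => ?_
      ring
    rw [e]
    refine h1.trans ?_
    rw [hΛ, ← mul_assoc]
    gcongr
    exact tr_le j a _
  have hlim : ∀ x : E n, Tendsto (fun j => ∫⁻ y, ‖F f (x - y)‖ₑ ^ 2 * tr j a y) atTop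
      (𝓝 (∫⁻ y, ‖F f (x - y)‖ₑ ^ 2 * a y)) := by
    intro x
    refine lintegral_tendsto_of_tendsto_of_monotone (fun j => ?_) ?_ ?_
    · exact ((hFm.comp (measurable_const.sub measurable_id)).mul (tr_meas j a ha)).aemeasurable
    · exact Eventually.of_forall fun y i j hij => mul_le_mul' le_rfl (tr_mono a y hij)
    · refine Eventually.of_forall fun y => ?_
      refine ENNReal.Tendsto.const_mul (tr_tendsto a y) (Or.inr ?_)
      simp
  have h2 := lim_le _ _ (fun j => hcm _ (tr_meas j a ha)) hlim (sp n) _ key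
  have h3 := ENNReal.rpow_le_rpow h2 (show 0 ≤ 1 / sp n by positivity)
  rwa [← ENNReal.rpow_mul Λ, mul_one_div_cancel (by linarith), ENNReal.rpow_one] at h3

/-- Superlevel sets: the function `1_A * 1_B` -/
theorem super_conv (n : ℕ) (hn : 2 ≤ n) : ∃ C : ℝ≥0, ∀ f : sphere (0 : E n) 1 → ℂ,
    MemLp f ∞ (sgm n) → ∀ (l : ℝ≥0∞) (A B : Set (E n)), MeasurableSet A → MeasurableSet B →
    (∀ x ∈ B, l ≤ ‖F f x‖ₑ ^ 2) →
    l * (∫⁻ w, rep A B w ^ sp n) ^ (1 / sp n) ≤
      C * eLpNorm f ∞ (sgm n) ^ 2 * volume A ^ (1 / rr n) := by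
  obtain ⟨C, hC⟩ := conv_ineq n hn
  have hs := sp_pos hn
  have hr := rr_pos n hn
  refine ⟨C, fun f hf l A B hA hB hl => ?_⟩
  have h := hC f hf (A.indicator 1) (measurable_one.indicator hA)
  have e1 : ∫⁻ x, (A.indicator (1 : E n → ℝ≥0∞) x) ^ rr n = volume A := by
    rw [← lintegral_indicator_one hA]
    refine lintegral_congr fun x => ?_
    by_cases hx : x ∈ A
    · rw [indicator_of_mem hx]; simp
    · rw [indicator_of_notMem hx, ENNReal.zero_rpow_of_pos hr]
  rw [e1] at h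
  refine le_trans ?_ h
  have hFm : Measurable fun u : E n => ‖F f u‖ₑ ^ 2 := (F_meas f hf.1).enorm.pow_const 2
  have hrm := rep_meas A B hA hB
  have hl' : ∀ w, l * rep A B w ≤ ∫⁻ y, ‖F f (w - y)‖ₑ ^ 2 * A.indicator 1 y := by
    intro w
    have hBm : Measurable (B.indicator (1 : E n → ℝ≥0∞)) := measurable_one.indicator hB
    have hAm : Measurable (A.indicator (1 : E n → ℝ≥0∞)) := measurable_one.indicator hA
    have hm : Measurable fun y : E n => A.indicator (1 : E n → ℝ≥0∞) y *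
        B.indicator (1 : E n → ℝ≥0∞) (w - y) :=
      hAm.mul (hBm.comp (measurable_const.sub measurable_id))
    rw [rep_eq A B hA hB w, ← lintegral_const_mul _ hm]
    refine lintegral_mono fun y => ?_
    by_cases hy : w - y ∈ B
    · rw [indicator_of_mem hy, Pi.one_apply, mul_one, mul_comm l, mul_comm (‖F f (w - y)‖ₑ ^ 2)]
      exact mul_le_mul' le_rfl (hl _ hy)
    · rw [indicator_of_notMem hy, mul_zero, mul_zero]
      exact zero_le
  calc l * (∫⁻ w, rep A B w ^ sp n) ^ (1 / sp n)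
      = (∫⁻ w, (l * rep A B w) ^ sp n) ^ (1 / sp n) := by
        have e2 : ∀ w, (l * rep A B w) ^ sp n = l ^ sp n * rep A B w ^ sp n := fun w =>
          ENNReal.mul_rpow_of_nonneg _ _ (by linarith)
        simp_rw [e2]
        rw [lintegral_const_mul _ (hrm.pow_const _), ENNReal.mul_rpow_of_nonneg _ _ (by positivity),
          ← ENNReal.rpow_mul, mul_one_div_cancel (by linarith), ENNReal.rpow_one]
    _ ≤ _ := ENNReal.rpow_le_rpow (lintegral_mono fun w =>
        ENNReal.rpow_le_rpow (hl' w) (by linarith)) (by positivity)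

/-- interpolation -/
theorem interp (hn : 2 ≤ n) (h : E n → ℝ≥0∞) (hh : Measurable h) :
    (∫⁻ w, h w ^ 2) ^ (1 + 1 / (n : ℝ)) ≤
      (∫⁻ w, h w) ^ (2 / (n : ℝ)) * ((∫⁻ w, h w ^ sp n) ^ (1 / sp n)) ^ 2 := by
  have hn' : (2 : ℝ) ≤ n := by exact_mod_cast hn
  have hn1 : (0 : ℝ) < n - 1 := by linarith
  have hs := sp_pos hn
  -- Hölder with exponents (n+1)/2 and (n+1)/(n-1)
  have hpq : ((((n : ℝ) + 1) / 2)).HolderConjugate (((n : ℝ) + 1) / (n - 1)) := by
    refine ⟨?_, by positivity, by positivity⟩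
    field_simp
    ring
  have h1 := ENNReal.lintegral_mul_le_Lp_mul_Lq (volume : Measure (E n)) hpq
    (f := fun w => h w ^ (2 / ((n : ℝ) + 1))) (g := fun w => h w ^ rr n)
    (hh.pow_const _).aemeasurable (hh.pow_const _).aemeasurable
  have e1 : ∫⁻ w, ((fun w => h w ^ (2 / ((n : ℝ) + 1))) * fun w => h w ^ rr n) w =
      ∫⁻ w, h w ^ 2 := by
    refine lintegral_congr fun w => ?_
    simp only [Pi.mul_apply]
    rw [← ENNReal.rpow_add_of_nonneg _ _ (by positivity) (rr_pos n hn).le, ← ENNReal.rpow_natCast]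
    congr 1
    unfold rr
    push_cast
    field_simp
    ring
  have e2 : ∫⁻ w, (h w ^ (2 / ((n : ℝ) + 1))) ^ (((n : ℝ) + 1) / 2) = ∫⁻ w, h w := by
    refine lintegral_congr fun w => ?_
    rw [← ENNReal.rpow_mul]
    have : 2 / ((n : ℝ) + 1) * (((n : ℝ) + 1) / 2) = 1 := by field_simp
    rw [this, ENNReal.rpow_one]
  have e3 : ∫⁻ w, (h w ^ rr n) ^ (((n : ℝ) + 1) / (n - 1)) = ∫⁻ w, h w ^ sp n := by
    refine lintegral_congr fun w => ?_
    rw [← ENNReal.rpow_mul]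
    congr 1
    unfold rr sp
    field_simp
  rw [e1, e2, e3] at h1
  have h2 := ENNReal.rpow_le_rpow h1 (show 0 ≤ 1 + 1 / (n : ℝ) by positivity)
  refine h2.trans (le_of_eq ?_)
  rw [ENNReal.mul_rpow_of_nonneg _ _ (by positivity), ← ENNReal.rpow_mul, ← ENNReal.rpow_mul]
  congr 1
  · congr 1
    field_simp
  · rw [← ENNReal.rpow_natCast, ← ENNReal.rpow_mul]
    congr 1
    unfold sp
    push_cast
    field_simp

/-- Superlevel sets and additive energy. -/
theorem super_energy (n : ℕ) (hn : 2 ≤ n) : ∃ C : ℝ≥0, ∀ f : sphere (0 : E n) 1 → ℂ,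
    MemLp f ∞ (sgm n) → ∀ (l : ℝ≥0∞) (A B : Set (E n)), MeasurableSet A → MeasurableSet B →
    (∀ x ∈ B, l ≤ ‖F f x‖ₑ ^ 2) →
    l ^ 2 * (∫⁻ w, rep A B w ^ 2) ^ (1 + 1 / (n : ℝ)) ≤
      C * eLpNorm f ∞ (sgm n) ^ 4 * volume A ^ (1 + 3 / (n : ℝ)) * volume B ^ (2 / (n : ℝ)) := by
  obtain ⟨C, hC⟩ := super_conv n hn
  have hn' : (2 : ℝ) ≤ n := by exact_mod_cast hn
  have hs := sp_pos hn
  have hr := rr_pos n hn
  refine ⟨C ^ 2, fun f hf l A B hA hB hl => ?_⟩
  have h1 := hC f hf l A B hA hB hl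
  have h2 := interp hn (rep A B) (rep_meas A B hA hB)
  rw [rep_int A B hA hB] at h2
  calc l ^ 2 * (∫⁻ w, rep A B w ^ 2) ^ (1 + 1 / (n : ℝ))
      ≤ l ^ 2 * ((volume A * volume B) ^ (2 / (n : ℝ)) *
        ((∫⁻ w, rep A B w ^ sp n) ^ (1 / sp n)) ^ 2) := mul_le_mul' le_rfl h2
    _ = (volume A * volume B) ^ (2 / (n : ℝ)) *
        (l * (∫⁻ w, rep A B w ^ sp n) ^ (1 / sp n)) ^ 2 := by ring
    _ ≤ (volume A * volume B) ^ (2 / (n : ℝ)) *
        (C * eLpNorm f ∞ (sgm n) ^ 2 * volume A ^ (1 / rr n)) ^ 2 := by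
        gcongr
    _ = _ := by
        rw [ENNReal.mul_rpow_of_nonneg _ _ (by positivity)]
        have e1 : (volume A ^ (1 / rr n)) ^ 2 = volume A ^ (1 + 1 / (n : ℝ)) := by
          rw [← ENNReal.rpow_natCast, ← ENNReal.rpow_mul]
          congr 1
          unfold rr
          push_cast
          field_simp
        have e2 : volume A ^ (1 + 3 / (n : ℝ)) =
            volume A ^ (2 / (n : ℝ)) * volume A ^ (1 + 1 / (n : ℝ)) := by
          rw [← ENNReal.rpow_add_of_nonneg _ _ (by positivity) (by positivity)]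
          congr 1
          ring
        rw [mul_pow, mul_pow, e1, e2, ENNReal.coe_pow]
        ring

end Pool.Agent.Helper66x.CE
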